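import Pool.Agent.Helper92.PV.St

/-! PV MODULE GE3 (project PV, MP_ad0dc2_nt). -/

set_option autoImplicit false

open Finset

namespace Pool.Agent.Helper5.PV

open Pool.Agent.Helper92.PV Pool.Agent.Helper92.PU Pool.Agent.Helper92.PW

/-- MODULE GE3. -/
theorem hGE3 (h1 : StPT3) : StGE3 := by
  intro k ε hk hε
  obtain ⟨e, he, he1, hee⟩ : ∃ e : ℝ, 0 < e ∧ e ≤ 1 / 4 ∧ 2 * e ≤ ε :=
    ⟨min ε (1 / 4) / 2, by positivity, by
      have := min_le_right ε (1 / 4)
      linarith, by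
      have := min_le_left ε (1 / 4)
      linarith⟩
  obtain ⟨C, hC, hpat⟩ := h1 k (3 / 4 + e) (ε / 2) hk (by linarith) (by linarith) (by positivity)
  refine ⟨4 * C, by positivity, ?_⟩
  intro B X hB1 hX S hS
  have hB0 : 0 < B := by linarith
  obtain ⟨l, hl⟩ : ∃ l : ℝ, l = B ^ (-(3 / 4 + e) : ℝ) := ⟨_, rfl⟩
  have hl0 : 0 < l := by
    rw [hl]
    exact Real.rpow_pos_of_pos hB0 _
  have hBl : B * l = B ^ (1 / 4 - e : ℝ) := by
    rw [hl]
    nth_rewrite 1 [← Real.rpow_one B]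
    rw [← Real.rpow_add hB0]
    congr 1
    ring
  obtain ⟨M, hM⟩ : ∃ M : ℝ, M = 2 * X / B := ⟨_, rfl⟩
  have hM0 : 0 ≤ M := by
    rw [hM]
    positivity
  let f : Pt → ℕ := fun p => ⌊(xi p + M) / l⌋₊
  have hxi : ∀ p ∈ S, 0 ≤ xi p + M ∧ xi p + M ≤ 2 * M := by
    intro p hp
    have h4 := (hS p hp).1.z_gt
    have h5 := (hS p hp).2
    have h6 : |xi p| ≤ M := by
      unfold xi
      rw [abs_div, hM]
      calc |(p.1 : ℝ)| / |(p.2.2 : ℝ)| ≤ X / (B / 2) :=
            div_le_div₀ hX h5 (by positivity) h4.le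
        _ = 2 * X / B := by
            field_simp
    obtain ⟨h7, h8⟩ := abs_le.1 h6
    constructor <;> linarith
  set N : ℕ := ⌊2 * M / l⌋₊ with hN
  have hf : ∀ p ∈ S, f p ∈ Finset.range (N + 1) := by
    intro p hp
    rw [Finset.mem_range, Nat.lt_succ_iff]
    refine Nat.floor_le_floor ?_
    exact div_le_div_of_nonneg_right (hxi p hp).2 hl0.le
  have hcard := Finset.card_eq_sum_card_fiberwise (f := f) (s := S)
    (t := Finset.range (N + 1)) (fun p hp => by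
      have := hf p (by simpa using hp)
      simpa using this)
  have hfib : ∀ j ∈ Finset.range (N + 1),
      ((S.filter fun p => f p = j).card : ℝ) ≤ C * B ^ (1 / 10 + ε / 2 : ℝ) := by
    intro j _
    refine hpat B _ hB1 (fun p hp => (hS p (Finset.mem_filter.mp hp).1).1) ?_
    intro p hp q hq
    obtain ⟨hpS, hpj⟩ := Finset.mem_filter.mp hp
    obtain ⟨hqS, hqj⟩ := Finset.mem_filter.mp hq
    have p0 := (hxi p hpS).1
    have q0 := (hxi q hqS).1
    have a1 : (j : ℝ) ≤ (xi p + M) / l := by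
      rw [← hpj]
      exact Nat.floor_le (div_nonneg p0 hl0.le)
    have a2 : (xi p + M) / l < j + 1 := by
      rw [← hpj]
      exact Nat.lt_floor_add_one _
    have a3 : (j : ℝ) ≤ (xi q + M) / l := by
      rw [← hqj]
      exact Nat.floor_le (div_nonneg q0 hl0.le)
    have a4 : (xi q + M) / l < j + 1 := by
      rw [← hqj]
      exact Nat.lt_floor_add_one _
    have a5 : |(xi p - xi q) / l| ≤ 1 := by
      have e7 : (xi p - xi q) / l = (xi p + M) / l - (xi q + M) / l := by ring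
      rw [e7, abs_le]
      constructor <;> linarith
    rw [abs_div, abs_of_pos hl0, div_le_one hl0, hl] at a5
    exact a5
  have hsum : (S.card : ℝ) ≤ ((N : ℝ) + 1) * (C * B ^ (1 / 10 + ε / 2 : ℝ)) := by
    rw [hcard]
    push_cast
    refine le_trans (Finset.sum_le_card_nsmul _ _ (C * B ^ (1 / 10 + ε / 2 : ℝ)) hfib) ?_
    rw [Finset.card_range, nsmul_eq_mul]
    push_cast
    exact le_rfl
  have hfl : (N : ℝ) ≤ 4 * X * (B ^ (-(1 / 4) : ℝ) * B ^ e) := by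
    refine (Nat.floor_le (by positivity)).trans (le_of_eq ?_)
    have e1 : 2 * M / l = 4 * X / (B * l) := by
      rw [hM]
      field_simp
      ring
    rw [e1, hBl, ← Real.rpow_add hB0, div_eq_mul_inv, ← Real.rpow_neg hB0.le]
    congr 2
    ring
  have hBe1 : 1 ≤ B ^ e := Real.one_le_rpow hB1 he.le
  have hBe0 : 0 < B ^ e := by linarith
  have h22 : B ^ e * B ^ (1 / 10 + ε / 2 : ℝ) ≤ B ^ (1 / 10 + ε : ℝ) := by
    rw [← Real.rpow_add hB0]
    exact Real.rpow_le_rpow_of_exponent_le hB1 (by linarith)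
  have hfac : (N : ℝ) + 1 ≤ 4 * (X * B ^ (-(1 / 4) : ℝ) + 1) * B ^ e := by
    have e1 : 4 * (X * B ^ (-(1 / 4) : ℝ) + 1) * B ^ e =
        4 * X * (B ^ (-(1 / 4) : ℝ) * B ^ e) + 4 * B ^ e := by ring
    rw [e1]
    linarith
  have hpos : 0 ≤ X * B ^ (-(1 / 4) : ℝ) + 1 := by positivity
  calc (S.card : ℝ) ≤ ((N : ℝ) + 1) * (C * B ^ (1 / 10 + ε / 2 : ℝ)) := hsum
    _ ≤ (4 * (X * B ^ (-(1 / 4) : ℝ) + 1) * B ^ e) * (C * B ^ (1 / 10 + ε / 2 : ℝ)) :=
        mul_le_mul_of_nonneg_right hfac (by positivity)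
    _ = 4 * C * (X * B ^ (-(1 / 4) : ℝ) + 1) * (B ^ e * B ^ (1 / 10 + ε / 2 : ℝ)) := by ring
    _ ≤ 4 * C * (X * B ^ (-(1 / 4) : ℝ) + 1) * B ^ (1 / 10 + ε : ℝ) :=
        mul_le_mul_of_nonneg_left h22 (by positivity)

end Pool.Agent.Helper5.PV
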